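import Mathlib
import Pool.Agent.H96R3.BC.Stmts

/-!
# Elements of the Selberg class with coefficients of maximal size: definitions

This generalises the project BIGCOEF (`Pool.Agent.H96R3.BC`), in which the coefficients at the primes of the window
`(X, 2 X]` are `exp (sqrt (log X))`, to the size `exp (wf X)` for an arbitrary function `wf` with
`sqrt (log X) ≤ wf X = o (log X)`.
-/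

set_option autoImplicit false

open Finset

namespace Pool.Agent.Y627.BC

open Pool.Agent.H469R10.HO (Hoheisel TaskF)
open Pool.Agent.H336R4.PF (SS NT)
open Pool.Agent.H96R3.BC (vv UU CC gg cf KK TaskKer1 TaskKer2 Wts TaskLagA TaskSmo TaskDef TaskSum Sol TaskTheta TaskSel)

/-- admissible exponents -/
structure WF (wf : ℕ → ℝ) : Prop where
  lo : ∀ X : ℕ, Real.sqrt (Real.log X) ≤ wf X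
  hi : ∀ c : ℝ, 0 < c → ∃ X₁ : ℕ, ∀ X : ℕ, X₁ ≤ X → wf X ≤ c * Real.log X

/-- size of the coefficients in a window -/
noncomputable def AA (wf : ℕ → ℝ) (X : ℕ) : ℝ := Real.exp (wf X)

/-- distance of the primes in a window -/
noncomputable def DD (wf : ℕ → ℝ) (X : ℕ) : ℝ := Real.exp (11 / 6 * wf X)

/-- A base: windows `(X i, 2 X i]`, sparse sets of primes `P0 i` in them, coefficients `a0`. -/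
structure Base (wf : ℕ → ℝ) (C₁ : ℝ) (X : ℕ → ℕ) (P0 : ℕ → Finset ℕ) (a0 : ℕ → ℝ) : Prop where
  tower : ∀ i, Real.exp (Real.exp ((X i : ℝ) ^ 2)) ≤ X (i + 1)
  mem : ∀ i, ∀ p ∈ P0 i, p.Prime ∧ X i < p ∧ p ≤ 2 * X i
  sparse : ∀ i, ∀ A Y : ℕ, (((Ioc A (A + Y)).filter (fun p => p ∈ P0 i)).card : ℝ) ≤ Y / DD wf (X i) + 1
  many : ∀ i, (X i : ℝ) ≤ C₁ * (P0 i).card * DD wf (X i) * Real.log (X i)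
  val : ∀ i, ∀ p ∈ P0 i, a0 p = AA wf (X i)
  off : ∀ p, (∀ i, p ∉ P0 i) → a0 p = 0

/-- TASK LAG (interpolation weights on the primes of the cells). -/
def TaskLag (wf : ℕ → ℝ) : Prop := TaskLagA → Hoheisel → ∃ Q₀ : ℕ, ∀ Q : ℕ, Q₀ ≤ Q → ∃ C : ℝ, 0 < C ∧
  ∃ J₀ : ℕ, ∀ j₀ : ℕ, J₀ ≤ j₀ →
  ∀ (C₁ : ℝ) (X : ℕ → ℕ) (P0 : ℕ → Finset ℕ) (a0 : ℕ → ℝ), Base wf C₁ X P0 a0 → j₀ ^ (2 * Q) ≤ X 0 →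
    ∃ w : ℕ → ℝ → ℝ, Wts Q j₀ C a0 w

/-- TASK BASE (existence of bases). -/
def TaskBase (wf : ℕ → ℝ) : Prop := Hoheisel → ∃ C₁ : ℝ, 0 < C₁ ∧ ∀ N : ℕ,
  ∃ (X : ℕ → ℕ) (P0 : ℕ → Finset ℕ) (a0 : ℕ → ℝ), N ≤ X 0 ∧ Base wf C₁ X P0 a0

/-- TASK G1 (first moment). -/
def TaskG1 (wf : ℕ → ℝ) : Prop := ∀ Q : ℕ, 1 ≤ Q → ∀ s : ℝ, 0 < s → ∃ J₀ : ℕ, ∀ j₀ : ℕ, J₀ ≤ j₀ →
  ∀ (C₁ : ℝ) (X : ℕ → ℕ) (P0 : ℕ → Finset ℕ) (a0 : ℕ → ℝ), Base wf C₁ X P0 a0 → j₀ ^ (2 * Q) ≤ X 0 →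
  ∀ T : Finset ℕ, ∑ m ∈ T.filter (fun m => Squarefree m ∧ 1 < m), (∏ p ∈ m.primeFactors, gg Q j₀ a0 p) / m ≤ s

/-- the bound for the mass of a part of the cell -/
def MassBd (wf : ℕ → ℝ) (good : ℕ → ℕ → ℕ → Prop) : Prop := ∃ Q₀ : ℕ, ∀ Q : ℕ, Q₀ ≤ Q → ∀ s : ℝ, 0 < s →
  ∃ J₀ : ℕ, ∀ j₀ : ℕ, J₀ ≤ j₀ →
  ∀ (C₁ : ℝ) (X : ℕ → ℕ) (P0 : ℕ → Finset ℕ) (a0 : ℕ → ℝ), Base wf C₁ X P0 a0 → j₀ ^ (2 * Q) ≤ X 0 →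
  ∀ j : ℕ, j₀ ≤ j → ∀ T : Finset ℕ, T ⊆ CC Q j → (∀ n ∈ T, Squarefree n ∧ ¬ (n.Prime ∧ a0 n = 0) ∧ good Q j n) →
    ∑ n ∈ T, ∏ p ∈ n.primeFactors, gg Q j₀ a0 p ≤ s * (CC Q j).card / (Real.log j) ^ 3

/-- TASK NS: the integers with a large prime factor. -/
def TaskNS (wf : ℕ → ℝ) : Prop := TaskG1 wf → MassBd wf (fun Q j n => ∃ p ∈ n.primeFactors, j ^ (2 * Q) ≤ p ^ 128)

/-- TASK SM: the smooth integers. -/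
def TaskSm (wf : ℕ → ℝ) : Prop := TaskG1 wf → TaskSmo → MassBd wf (fun Q j n => ∀ p ∈ n.primeFactors, p ^ 128 < j ^ (2 * Q))

/-- TASK FIX: existence of the solution. -/
def TaskFix (wf : ℕ → ℝ) : Prop := TaskKer1 → TaskKer2 → TaskDef → TaskSum → TaskLagA → TaskLag wf → TaskG1 wf →
  TaskSmo → TaskNS wf → TaskSm wf → Hoheisel →
  ∃ Q : ℕ, 2 ≤ Q ∧ ∃ J₀ : ℕ, ∀ j₀ : ℕ, J₀ ≤ j₀ →
  ∀ (C₁ : ℝ) (X : ℕ → ℕ) (P0 : ℕ → Finset ℕ) (a0 : ℕ → ℝ), Base wf C₁ X P0 a0 → j₀ ^ (2 * Q) ≤ X 0 →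
    ∃ (y : ℕ → ℝ) (f : ℝ → ℝ), Sol Q j₀ a0 y f

/-- TASK GROW (Ramanujan bound). -/
def TaskGrow (wf : ℕ → ℝ) : Prop := ∃ X₀ : ℕ, ∀ (C₁ : ℝ) (X : ℕ → ℕ) (P0 : ℕ → Finset ℕ) (a0 : ℕ → ℝ),
  Base wf C₁ X P0 a0 → X₀ ≤ X 0 →
  ∀ y : ℕ → ℝ, (∀ p : ℕ, p.Prime → a0 p = 0 → |y p| ≤ 1) → (∀ p, a0 p ≠ 0 → y p = a0 p) →
    (∀ ε : ℝ, 0 < ε → ∃ C : ℝ, ∀ n : ℕ, 1 ≤ n → |cf y n| ≤ C * (n : ℝ) ^ ε) ∧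
    (∀ p : ℕ, p.Prime → |y p| ≤ (p : ℝ) ^ (1 / 4 : ℝ))

/-- TASK SEC (second moment). -/
def TaskSec (wf : ℕ → ℝ) : Prop := ∀ (C₁ : ℝ) (X : ℕ → ℕ) (P0 : ℕ → Finset ℕ) (a0 : ℕ → ℝ), 0 < C₁ → Base wf C₁ X P0 a0 →
  ∀ y : ℕ → ℝ, (∀ p, a0 p ≠ 0 → y p = a0 p) → ∀ i : ℕ, 1 < Real.log (X i) →
    Real.exp (wf (X i) / 6) / (2 * C₁ * Real.log (X i)) ≤
      ∑ p ∈ (Iic (2 * X i)).filter Nat.Prime, (y p) ^ 2 / (p : ℝ)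

end Pool.Agent.Y627.BC
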