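import Mathlib
import Pool.Agent.H96R3.BC.Fix3
import Pool.Agent.Y627.BC.Defs

/-! # The fixed point, for bases of general size -/

set_option autoImplicit false

open Finset

namespace Pool.Agent.Y627.BC

open Pool.Agent.H469R10.HO (Hoheisel TaskF)
open Pool.Agent.H96R3.BC hiding Base AA DD TaskLag TaskBase TaskG1 MassBd TaskNS TaskSm TaskFix TaskGrow TaskSec mass_comb mass_all AA_pos fixA

variable {wf : ℕ → ℝ}

/-- total mass of the cell -/
lemma mass_comb {g₁ g₂ : ℕ → ℕ → ℕ → Prop} (hg : ∀ Q j n, g₁ Q j n ∨ g₂ Q j n) (h₁ : MassBd wf g₁) (h₂ : MassBd wf g₂) :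
    MassBd wf (fun _ _ _ => True) := by
  obtain ⟨Q₁, h₁⟩ := h₁
  obtain ⟨Q₂, h₂⟩ := h₂
  refine ⟨max Q₁ Q₂, fun Q hQ s hs => ?_⟩
  obtain ⟨J₁, h₁⟩ := h₁ Q ((le_max_left _ _).trans hQ) (s / 2) (by positivity)
  obtain ⟨J₂, h₂⟩ := h₂ Q ((le_max_right _ _).trans hQ) (s / 2) (by positivity)
  refine ⟨max J₁ J₂, fun j₀ hj₀ C₁ X P0 a0 hB hX j hj T hT hT2 => ?_⟩
  have a₁ := h₁ j₀ ((le_max_left _ _).trans hj₀) C₁ X P0 a0 hB hX j hj
  have a₂ := h₂ j₀ ((le_max_right _ _).trans hj₀) C₁ X P0 a0 hB hX j hj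
  classical
  have b₁ := a₁ (T.filter (fun n => g₁ Q j n)) ((filter_subset _ _).trans hT)
    (fun n hn => by
      rw [mem_filter] at hn
      exact ⟨(hT2 n hn.1).1, (hT2 n hn.1).2.1, hn.2⟩)
  have b₂ := a₂ (T.filter (fun n => ¬ g₁ Q j n)) ((filter_subset _ _).trans hT)
    (fun n hn => by
      rw [mem_filter] at hn
      exact ⟨(hT2 n hn.1).1, (hT2 n hn.1).2.1, (hg Q j n).resolve_left hn.2⟩)
  rw [← sum_filter_add_sum_filter_not T (fun n => g₁ Q j n)]
  refine (add_le_add b₁ b₂).trans (le_of_eq ?_)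
  ring

lemma mass_all (hG1 : TaskG1 wf) (hSmo : TaskSmo) (hNS : TaskNS wf) (hSm : TaskSm wf) : MassBd wf (fun _ _ _ => True) := by
  refine mass_comb (fun Q j n => ?_) (hNS hG1) (hSm hG1 hSmo)
  by_cases h : ∃ p ∈ n.primeFactors, j ^ (2 * Q) ≤ p ^ 128
  · exact Or.inl h
  · right
    push Not at h
    exact h

lemma AA_pos (wf : ℕ → ℝ) (X : ℕ) : 0 < AA wf X := Real.exp_pos _

lemma Base.nonneg {C₁ : ℝ} {X : ℕ → ℕ} {P0 : ℕ → Finset ℕ} {a0 : ℕ → ℝ} (h : Base wf C₁ X P0 a0) (p : ℕ) : 0 ≤ a0 p := by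
  by_cases hp : ∃ i, p ∈ P0 i
  · obtain ⟨i, hi⟩ := hp
    rw [h.val i p hi]; exact (AA_pos wf _).le
  · push Not at hp
    rw [h.off p hp]

lemma Base.X_mono {C₁ : ℝ} {X : ℕ → ℕ} {P0 : ℕ → Finset ℕ} {a0 : ℕ → ℝ} (h : Base wf C₁ X P0 a0) : Monotone X := by
  apply monotone_nat_of_le_succ
  intro i
  have h1 := h.tower i
  have h2 : (X i : ℝ) ≤ Real.exp (Real.exp ((X i : ℝ) ^ 2)) := by
    have a1 := Real.add_one_le_exp ((X i : ℝ) ^ 2)
    have a2 := Real.add_one_le_exp (Real.exp ((X i : ℝ) ^ 2))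
    nlinarith [sq_nonneg ((X i : ℝ) - 1)]
  exact_mod_cast h2.trans h1

lemma Base.lt_of_ne {C₁ : ℝ} {X : ℕ → ℕ} {P0 : ℕ → Finset ℕ} {a0 : ℕ → ℝ} (h : Base wf C₁ X P0 a0) {p : ℕ} (hp : a0 p ≠ 0) :
    p.Prime ∧ X 0 < p := by
  by_cases hp' : ∃ i, p ∈ P0 i
  · obtain ⟨i, hi⟩ := hp'
    have h1 := h.mem i p hi
    exact ⟨h1.1, lt_of_le_of_lt (h.X_mono (Nat.zero_le i)) h1.2.1⟩
  · push Not at hp'
    exact absurd (h.off p hp') hp

theorem fixA : TaskFixB → TaskFix wf := by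
  intro hB hK1 hK2 hDef hSum hLA hLag hG1 hSmo hNS hSm hHo
  obtain ⟨Q1, hB⟩ := hB hK1 hK2 hDef hSum
  obtain ⟨Q2, hLag⟩ := hLag hLA hHo
  obtain ⟨Q3, hM⟩ := mass_all hG1 hSmo hNS hSm
  set Q := max (max Q1 Q2) (max Q3 2) with hQdef
  have hQ1 : Q1 ≤ Q := (le_max_left _ _).trans (le_max_left _ _)
  have hQ2 : Q2 ≤ Q := (le_max_right _ _).trans (le_max_left _ _)
  have hQ3 : Q3 ≤ Q := (le_max_left _ _).trans (le_max_right _ _)
  have hQ4 : 2 ≤ Q := (le_max_right _ _).trans (le_max_right _ _)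
  clear_value Q
  obtain ⟨C, hC, JL, hLag⟩ := hLag Q hQ2
  obtain ⟨s, hs, JB, hB⟩ := hB Q hQ1 C hC
  obtain ⟨JM, hM⟩ := hM Q hQ3 s hs
  refine ⟨Q, hQ4, max (max JL JB) (max JM 3), fun j₀ hj₀ C₁ X P0 a0 hBase hX => ?_⟩
  have hj1 : JL ≤ j₀ := ((le_max_left _ _).trans (le_max_left _ _)).trans hj₀
  have hj2 : JB ≤ j₀ := ((le_max_right _ _).trans (le_max_left _ _)).trans hj₀
  have hj3 : JM ≤ j₀ := ((le_max_left _ _).trans (le_max_right _ _)).trans hj₀
  have hj4 : 3 ≤ j₀ := ((le_max_right _ _).trans (le_max_right _ _)).trans hj₀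
  obtain ⟨κ, hκ, hsrc, hB⟩ := hB j₀ hj2
  obtain ⟨w, hw⟩ := hLag j₀ hj1 C₁ X P0 a0 hBase hX
  have hB := hB a0 w hw
  have hM := hM j₀ hj3 C₁ X P0 a0 hBase hX
  have ha0 := hBase.nonneg
  have hQp : 1 ≤ Q := by omega
  -- facts in the ball
  have ball : ∀ g : ℕ ⊕ ℝ → ℝ, (Continuous fun v => g (Sum.inr v)) → (∀ i, |g i| ≤ WW2 Q j₀ a0 κ i) →
      (∀ j, j₀ ≤ j → ∀ p ∈ CC Q j, p.Prime →
        |XL Q j₀ a0 w (cf (Yy a0 (fun q => g (Sum.inl q)))) (fun u => g (Sum.inr u)) j p| ≤ 1 / 2 * (1 / (Real.log p) ^ 2)) ∧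
      (∀ v : ℝ, 0 ≤ v → |FL Q j₀ a0 w (cf (Yy a0 (fun q => g (Sum.inl q)))) (fun u => g (Sum.inr u)) v| ≤ 1 / 2 * (κ * NN Q v)) ∧
      (Continuous fun v : ℝ => FL Q j₀ a0 w (cf (Yy a0 (fun q => g (Sum.inl q)))) (fun u => g (Sum.inr u)) (max v 0)) ∧
      (∃ M : ℕ → ℝ, Summable M ∧ ∀ (i : ℕ) (v : ℝ), 0 ≤ v →
        |BL Q j₀ a0 w (cf (Yy a0 (fun q => g (Sum.inl q)))) (fun u => g (Sum.inr u)) (j₀ + i) v| ≤ M i * v ^ (8 * Q + 7)) := by
    intro g hgc hg
    have hx : ∀ p, |g (Sum.inl p)| ≤ W1 Q j₀ a0 p := fun p => hg (Sum.inl p)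
    refine hB (cf (Yy a0 (fun q => g (Sum.inl q)))) (fun u => g (Sum.inr u)) 1 zero_le_one hgc ?_ ?_
    · intro j hj
      rw [one_mul]
      exact (mass_cf ha0 (hM j hj) hx hx le_rfl (fun p => by simp)).2
    · intro v hv
      rw [one_mul]
      have := hg (Sum.inr v)
      simp only [WW2, max_eq_left hv] at this
      exact this
  have diff : ∀ g g' : ℕ ⊕ ℝ → ℝ, (Continuous fun v => g (Sum.inr v)) → (Continuous fun v => g' (Sum.inr v)) →
      (∀ i, |g i| ≤ WW2 Q j₀ a0 κ i) → (∀ i, |g' i| ≤ WW2 Q j₀ a0 κ i) → ∀ D : ℝ, 0 ≤ D →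
      (∀ i, |g i - g' i| ≤ D * WW2 Q j₀ a0 κ i) →
      (∀ j, j₀ ≤ j → ∀ p ∈ CC Q j, p.Prime →
        |XL Q j₀ a0 w (fun n => cf (Yy a0 (fun q => g (Sum.inl q))) n - cf (Yy a0 (fun q => g' (Sum.inl q))) n)
          (fun u => g (Sum.inr u) - g' (Sum.inr u)) j p| ≤ D / 2 * (1 / (Real.log p) ^ 2)) ∧
      (∀ v : ℝ, 0 ≤ v → |FL Q j₀ a0 w (fun n => cf (Yy a0 (fun q => g (Sum.inl q))) n - cf (Yy a0 (fun q => g' (Sum.inl q))) n)
          (fun u => g (Sum.inr u) - g' (Sum.inr u)) v| ≤ D / 2 * (κ * NN Q v)) := by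
    intro g g' hgc hgc' hg hg' D hD hd
    have hx : ∀ p, |g (Sum.inl p)| ≤ W1 Q j₀ a0 p := fun p => hg (Sum.inl p)
    have hx' : ∀ p, |g' (Sum.inl p)| ≤ W1 Q j₀ a0 p := fun p => hg' (Sum.inl p)
    have hxx : ∀ p, |g (Sum.inl p) - g' (Sum.inl p)| ≤ D * W1 Q j₀ a0 p := fun p => hd (Sum.inl p)
    have h := hB (fun n => cf (Yy a0 (fun q => g (Sum.inl q))) n - cf (Yy a0 (fun q => g' (Sum.inl q))) n)
      (fun u => g (Sum.inr u) - g' (Sum.inr u)) D hD (hgc.sub hgc') ?_ ?_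
    · exact ⟨h.1, h.2.1⟩
    · intro j hj
      exact (mass_cf ha0 (hM j hj) hx hx' hD hxx).1
    · intro v hv
      have := hd (Sum.inr v)
      simp only [WW2, max_eq_left hv] at this
      exact this
  have sumBL : ∀ g : ℕ ⊕ ℝ → ℝ, (Continuous fun v => g (Sum.inr v)) → (∀ i, |g i| ≤ WW2 Q j₀ a0 κ i) → ∀ v : ℝ, 0 ≤ v →
      Summable fun i : ℕ => BL Q j₀ a0 w (cf (Yy a0 (fun q => g (Sum.inl q)))) (fun u => g (Sum.inr u)) (j₀ + i) v := by
    intro g hgc hg v hv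
    obtain ⟨M, hMs, hMb⟩ := (ball g hgc hg).2.2.2
    exact Summable.of_norm_bounded (hMs.mul_right (v ^ (8 * Q + 7))) (fun i => by rw [Real.norm_eq_abs]; exact hMb i v hv)
  -- Picard
  obtain ⟨g, hgC, hgW, hgfix⟩ := picard (WW2 Q j₀ a0 κ) (fun i => by
      cases i with
      | inl p => exact W1_nonneg _ _ _ _
      | inr v => exact mul_nonneg hκ.le (NN_nonneg _ (le_max_right _ _)))
    {g | Continuous fun v => g (Sum.inr v)} (by
      intro g l hg hgl
      show Continuous fun v => l (Sum.inr v)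
      have htl : TendstoLocallyUniformly (fun n v => g n (Sum.inr v)) (fun v => l (Sum.inr v)) Filter.atTop := by
        rw [Metric.tendstoLocallyUniformly_iff]
        intro ε hε v₀
        refine ⟨Metric.ball v₀ 1, Metric.ball_mem_nhds _ one_pos, ?_⟩
        set B : ℝ := κ * (2 + |v₀|) ^ (4 * Q + 3) with hBd
        have hB0 : 0 ≤ B := by positivity
        have ht : Filter.Tendsto (fun n : ℕ => 2 * (1 / 2 : ℝ) ^ n * B) Filter.atTop (nhds 0) := by
          have := ((tendsto_pow_atTop_nhds_zero_of_lt_one (r := (1/2:ℝ)) (by norm_num) (by norm_num)).const_mul 2).mul_const B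
          simpa using this
        filter_upwards [ht.eventually (gt_mem_nhds hε)] with n hn v hv
        rw [Metric.mem_ball, Real.dist_eq] at hv
        rw [dist_comm, Real.dist_eq]
        refine lt_of_le_of_lt ((hgl n (Sum.inr v)).trans ?_) hn
        apply mul_le_mul_of_nonneg_left _ (by positivity)
        show κ * NN Q (max v 0) ≤ B
        apply mul_le_mul_of_nonneg_left _ hκ.le
        refine (NN_le Q (le_max_right _ _)).trans (pow_le_pow_left₀ (by positivity) ?_ _)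
        have h1 : max v 0 ≤ |v| := max_le (le_abs_self _) (abs_nonneg _)
        have h2 : |v| ≤ |v₀| + 1 := by
          have := abs_sub_abs_le_abs_sub v v₀
          linarith
        linarith
      exact htl.continuous (Filter.Frequently.of_forall fun n => hg n))
    (Ph Q j₀ a0 w) continuous_const
    (by
      intro g hg hgW
      show Continuous fun v => Ph Q j₀ a0 w g (Sum.inr v)
      have h := (ball g hg hgW).2.2.1
      refine Continuous.add ?_ h
      exact continuous_const.mul ((KK_cont_right hK1 (by omega) _).comp (continuous_id.max continuous_const)))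
    (by
      intro g hg hgW i
      have h := ball g hg hgW
      cases i with
      | inl p =>
        show |if _ then _ else _| ≤ W1 Q j₀ a0 p
        unfold W1
        split_ifs with hp
        · obtain ⟨hj, hpc⟩ := jc_spec hQp hp.2.2
          refine (h.1 _ hj p hpc hp.1).trans ?_
          have : 0 ≤ 1 / (Real.log p) ^ 2 := by positivity
          linarith
        · simp
      | inr v =>
        show |_ + _| ≤ κ * NN Q (max v 0)
        have h1 := hsrc (max v 0) (le_max_right _ _)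
        have h2 := h.2.1 (max v 0) (le_max_right _ _)
        have h3 : 0 ≤ κ * NN Q (max v 0) := mul_nonneg hκ.le (NN_nonneg _ (le_max_right _ _))
        refine (abs_add_le _ _).trans ?_
        have h4 : κ / 4 * NN Q (max v 0) = 1 / 4 * (κ * NN Q (max v 0)) := by ring
        rw [h4] at h1
        linarith)
    (by
      intro g hg g' hg' hgW hgW' D hD hd i
      have h := diff g g' hg hg' hgW hgW' D hD hd
      cases i with
      | inl p =>
        show |(if _ then _ else _) - (if _ then _ else _)| ≤ D / 2 * W1 Q j₀ a0 p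
        unfold W1
        split_ifs with hp
        · obtain ⟨hj, hpc⟩ := jc_spec hQp hp.2.2
          rw [← XL_sub hw hg hg']
          exact h.1 _ hj p hpc hp.1
        · simp
      | inr v =>
        have hv : (0:ℝ) ≤ max v 0 := le_max_right _ _
        show |(_ + _) - (_ + _)| ≤ D / 2 * (κ * NN Q (max v 0))
        rw [add_sub_add_left_eq_sub, ← FL_sub hK1 hw hg hg' _ (sumBL g hg hgW _ hv) (sumBL g' hg' hgW' _ hv)]
        exact h.2 (max v 0) hv)
  have hgC' : Continuous fun v => g (Sum.inr v) := hgC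
  have hb := ball g hgC' hgW
  set x : ℕ → ℝ := fun q => g (Sum.inl q) with hx
  set f : ℝ → ℝ := fun u => g (Sum.inr u) with hf
  have hxW : ∀ p, |x p| ≤ W1 Q j₀ a0 p := fun p => hgW (Sum.inl p)
  have hBf : ∀ j, j₀ ≤ j → ∀ v, Bf Q j₀ (Yy a0 x) f j v = BL Q j₀ a0 w (cf (Yy a0 x)) f j v := by
    intro j hj v
    refine Bf_eq_BL hK1 hw hgC' hQp (by omega) hj (fun p hp hpp hap => ?_) v
    have hpj : j₀ ^ (2 * Q) < p := by
      rw [mem_CC] at hp
      exact lt_of_le_of_lt (Nat.pow_le_pow_left hj _) hp.1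
    have h1 := hgfix (Sum.inl p)
    have h2 : Ph Q j₀ a0 w g (Sum.inl p) = XL Q j₀ a0 w (cf (Yy a0 x)) f (jc Q j₀ p) p := by
      show (if _ then _ else _) = _
      rw [if_pos ⟨hpp, hap, hpj⟩]
    have h3 : jc Q j₀ p = j := CC_unique (jc_spec hQp hpj).2 hp
    rw [h3] at h2
    unfold Yy
    rw [if_neg (by simpa using hap)]
    show g (Sum.inl p) = _
    rw [← h1, h2]
    rfl
  refine ⟨Yy a0 x, f, ?_⟩
  refine
    { small := ?_
      big := ?_
      low := ?_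
      cont := hgC'
      bd := ?_
      sumb := ?_
      eq := ?_ }
  · intro p hp hap
    unfold Yy
    rw [if_neg (by simpa using hap)]
    refine (hxW p).trans ?_
    unfold W1
    split_ifs with h
    · have h1 : (3:ℝ) ≤ p := by
        have : 3 ≤ j₀ ^ (2 * Q) := hj4.trans (Nat.le_self_pow (by omega) _)
        exact_mod_cast (this.trans h.2.2.le)
      have h2 : 1 ≤ Real.log p := by
        rw [Real.le_log_iff_exp_le (by linarith)]
        have := Real.exp_one_lt_d9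
        linarith
      rw [div_le_one (by positivity)]
      nlinarith
    · exact zero_le_one
  · intro p hap
    unfold Yy
    rw [if_pos hap]
  · intro p hp
    have hap : a0 p = 0 := by
      by_contra h
      have := (hBase.lt_of_ne h).2
      omega
    unfold Yy
    rw [if_neg (by simpa using hap)]
    have h1 := hxW p
    unfold W1 at h1
    rw [if_neg (by omega)] at h1
    exact abs_nonpos_iff.1 h1
  · refine ⟨κ, fun v hv => ?_⟩
    have h1 := hgW (Sum.inr v)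
    simp only [WW2, max_eq_left hv] at h1
    exact h1.trans (mul_le_mul_of_nonneg_left (NN_le Q hv) hκ.le)
  · obtain ⟨M, hMs, hMb⟩ := hb.2.2.2
    refine ⟨M, hMs, fun i v hv => ?_⟩
    rw [hBf (j₀ + i) (by omega) v]
    exact hMb i v hv
  · intro v hv
    have h1 := hgfix (Sum.inr v)
    have h2 : Ph Q j₀ a0 w g (Sum.inr v) = (vv Q j₀ 1) ^ 2 * KK (4 * Q + 4) (vv Q j₀ 1) (max v 0) +
      FL Q j₀ a0 w (cf (Yy a0 x)) f (max v 0) := rfl
    rw [max_eq_left hv] at h2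
    show g (Sum.inr v) = _
    rw [← h1, h2]
    unfold FL
    have h3 : ∀ i : ℕ, BL Q j₀ a0 w (cf (Yy a0 x)) f (j₀ + i) v = Bf Q j₀ (Yy a0 x) f (j₀ + i) v :=
      fun i => (hBf (j₀ + i) (by omega) v).symm
    simp_rw [h3]
    ring

end Pool.Agent.Y627.BC
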