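import Pool.Agent.Y627.BC.Defs

/-!
# Task SEC of the project BIGCOEF (helper96): the second moment of the base coefficients is large.
-/

set_option autoImplicit false

open Finset Filter

namespace Pool.Agent.Y627.BC.Sec

open Pool.Agent.H96R3.BC hiding Base AA DD TaskLag TaskBase TaskG1 MassBd TaskNS TaskSm TaskFix TaskGrow TaskSec

variable {wf : ℕ → ℝ}

theorem taskSec : TaskSec wf := by
  intro C₁ X P0 a0 hC hB y hy i hlog1
  have hX0 : (0:ℝ) < X i := by
    by_contra h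
    have h2 : (X i : ℝ) = 0 := le_antisymm (not_lt.1 h) (Nat.cast_nonneg _)
    rw [h2] at hlog1
    simp at hlog1
    linarith
  have hA : 0 < AA wf (X i) := Real.exp_pos _
  have hsub : P0 i ⊆ (Iic (2 * X i)).filter Nat.Prime := by
    intro p hp
    obtain ⟨h1, h2, h3⟩ := hB.mem i p hp
    exact mem_filter.2 ⟨mem_Iic.2 h3, h1⟩
  have h1 : ∑ p ∈ P0 i, (y p) ^ 2 / (p : ℝ) ≤ ∑ p ∈ (Iic (2 * X i)).filter Nat.Prime, (y p) ^ 2 / (p : ℝ) :=
    sum_le_sum_of_subset_of_nonneg hsub fun p _ _ => by positivity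
  refine le_trans ?_ h1
  have h2 : ∑ p ∈ P0 i, (AA wf (X i)) ^ 2 / (2 * X i : ℝ) ≤ ∑ p ∈ P0 i, (y p) ^ 2 / (p : ℝ) := by
    refine sum_le_sum fun p hp => ?_
    obtain ⟨h3, h4, h5⟩ := hB.mem i p hp
    have h6 : a0 p = AA wf (X i) := hB.val i p hp
    have h7 : y p = AA wf (X i) := by
      rw [hy p (by rw [h6]; exact hA.ne'), h6]
    rw [h7]
    have h8 : (0:ℝ) < p := by exact_mod_cast h3.pos
    have h9 : (p : ℝ) ≤ 2 * X i := by exact_mod_cast h5
    gcongr
  refine le_trans ?_ h2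
  rw [sum_const, nsmul_eq_mul]
  have h3 := hB.many i
  have hL : 0 < Real.log (X i) := by linarith
  have hAD : (AA wf (X i)) ^ 2 = Real.exp (wf (X i) / 6) * DD wf (X i) := by
    unfold AA DD
    rw [← Real.exp_nat_mul, ← Real.exp_add]
    congr 1
    push_cast
    ring
  rw [hAD]
  have hE : 0 < Real.exp (wf (X i) / 6) := Real.exp_pos _
  rw [div_le_iff₀ (by positivity)]
  have h6 : ((P0 i).card : ℝ) * (Real.exp (wf (X i) / 6) * DD wf (X i) / (2 * X i)) * (2 * C₁ * Real.log (X i)) =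
      Real.exp (wf (X i) / 6) * (C₁ * (P0 i).card * DD wf (X i) * Real.log (X i)) / X i := by
    field_simp
  rw [h6, le_div_iff₀ hX0]
  exact mul_le_mul_of_nonneg_left h3 hE.le

end Pool.Agent.Y627.BC.Sec
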