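import Mathlib
import Pool.Agent.H96R3.BC.Asm
import Pool.Agent.H177R3.Big
import Pool.Agent.Y627.BC.Fix
import Pool.Agent.Y627.BC.BaseEx
import Pool.Agent.Y627.BC.G1
import Pool.Agent.Y627.BC.NS
import Pool.Agent.Y627.BC.SM
import Pool.Agent.Y627.BC.Grow
import Pool.Agent.Y627.BC.Sec
import Pool.Agent.Y627.BC.Lag

/-! # Elements of the Selberg class with coefficients of maximal size: assembly -/

set_option autoImplicit false

open Finset

namespace Pool.Agent.Y627.BC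

open Pool.Agent.H336R4.PF (SS NT)
open Pool.Agent.H96R3.BC (cf cf_prime TaskKer1 TaskKer2)

/-- elements of the Selberg class with large coefficients in a sequence of windows -/
theorem exists_elt {wf : ℕ → ℝ} (hwf : WF wf) : ∃ a : ℕ → ℂ, SS a ∧ NT a ∧
    ∃ C₁ : ℝ, 0 < C₁ ∧ ∃ X : ℕ → ℕ, (∀ i : ℕ, (i : ℝ) ≤ X i) ∧ ∀ i : ℕ, 1 < Real.log (X i) →
      Real.exp (wf (X i) / 6) / (2 * C₁ * Real.log (X i)) ≤
        ∑ p ∈ (Iic (2 * X i)).filter Nat.Prime, ‖a p‖ ^ 2 / (p : ℝ) := by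
  have hHo := Pool.Agent.H469R10.HO.hoheisel
  have hK1 : TaskKer1 := Pool.Agent.H589R3.BC.taskKer1
  have hK2 : TaskKer2 := Pool.Agent.H553R3.BC.taskKer2
  obtain ⟨Q, hQ, J₀, hfix⟩ := fixA (wf := wf) Pool.Agent.H336R4.BC.taskFixB hK1 hK2 Pool.Agent.H124R3.BC.taskDef
    Pool.Agent.H782R3.BCSum.taskSum
    Pool.Agent.H195R3.BC.lagA (Lag.taskLag hwf) (G1.taskG1 hwf) Pool.Agent.H828R3.BC.taskSmo
    (NS.taskNS hwf) (SM.taskSm hwf) hHo
  obtain ⟨C₁, hC₁, hbase⟩ := BaseEx.taskBase hwf hHo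
  obtain ⟨X₀, hgrow⟩ := Grow.taskGrow hwf
  obtain ⟨X, P0, a0, hX, hB⟩ := hbase (max ((max J₀ 2) ^ (2 * Q)) (max X₀ 1))
  have hX1 : (max J₀ 2) ^ (2 * Q) ≤ X 0 := (le_max_left _ _).trans hX
  have hX2 : X₀ ≤ X 0 := ((le_max_left _ _).trans (le_max_right _ _)).trans hX
  have hX3 : 1 ≤ X 0 := ((le_max_right _ _).trans (le_max_right _ _)).trans hX
  obtain ⟨y, f, hS⟩ := hfix (max J₀ 2) (le_max_left _ _) C₁ X P0 a0 hB hX1
  obtain ⟨hg1, hg2⟩ := hgrow C₁ X P0 a0 hB hX2 y hS.small hS.big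
  have hlin : ∃ C : ℝ, ∀ n : ℕ, 1 ≤ n → |cf y n| ≤ C * n := by
    obtain ⟨C, hC⟩ := hg1 1 one_pos
    refine ⟨C, fun n hn => ?_⟩
    have := hC n hn
    rwa [Real.rpow_one] at this
  have hth := Pool.Agent.H993R3.BC.taskTheta hK1 hK2 Q (max J₀ 2) a0 y f (by omega) (le_max_right _ _) hS hlin
  have hsel := Pool.Agent.H878.BCSel.taskSel Pool.Agent.H144R3.T469F.taskF Q (max J₀ 2) y (by omega) (le_max_right _ _) hg1 hg2 hth
  refine ⟨fun n => (cf y n : ℂ), hsel, ?_, C₁, hC₁, X, Pool.Agent.H135R3.BCSec.tower_ge hB.tower, ?_⟩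
  · have hne : (P0 0).Nonempty := by
      by_contra h
      rw [not_nonempty_iff_eq_empty] at h
      have h1 := hB.many 0
      rw [h] at h1
      simp at h1
      omega
    obtain ⟨p, hp⟩ := hne
    have h1 := (hB.mem 0 p hp).1
    have h2 : a0 p ≠ 0 := by rw [hB.val 0 p hp]; exact (AA_pos wf _).ne'
    refine ⟨p, h1.two_le, ?_⟩
    simp only []
    rw [cf_prime y h1, hS.big p h2]
    exact_mod_cast h2
  · intro i hi
    refine (Sec.taskSec C₁ X P0 a0 hC₁ hB y hS.big i hi).trans (le_of_eq ?_)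
    apply sum_congr rfl
    intro p hp
    rw [mem_filter] at hp
    simp only []
    rw [cf_prime y hp.2, Complex.norm_real, Real.norm_eq_abs, sq_abs]

end Pool.Agent.Y627.BC
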