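import Pool.Agent.Y627.BC.Asm

/-! # Primitive elements of the Selberg class of maximal size -/

set_option autoImplicit false

open Finset Filter Asymptotics

namespace Pool.Agent.Y627.BC

open Pool.Agent.H336R4.PF Pool.Agent.H96R3.BC Pool.Agent.H177R3.PFV Pool.Agent.H177R3.Lit Pool.Agent.H177R3.Big

/-- the exponents belonging to `ψ` -/
noncomputable def wψ (ψ : ℝ → ℝ) (X : ℕ) : ℝ :=
  12 * (Real.sqrt (Real.log X) + Real.log (1 + |ψ ((2 * X : ℕ) : ℝ)|))

lemma wψ_WF {ψ : ℝ → ℝ} (hψ : ∀ ε : ℝ, 0 < ε → ψ =O[atTop] fun x : ℝ => x ^ ε) : WF (wψ ψ) := by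
  have hl : ∀ X : ℕ, 0 ≤ Real.log (1 + |ψ ((2 * X : ℕ) : ℝ)|) := fun X =>
    Real.log_nonneg (by have := abs_nonneg (ψ ((2 * X : ℕ) : ℝ)); linarith)
  refine ⟨fun X => ?_, fun c hc => ?_⟩
  · have h1 := Real.sqrt_nonneg (Real.log X)
    have h2 := hl X
    unfold wψ
    linarith
  · have h1 : ∀ᶠ x : ℝ in atTop, 12 * Real.sqrt (Real.log x) ≤ c / 2 * Real.log x := by
      have h2 := (Real.tendsto_sqrt_atTop.comp Real.tendsto_log_atTop).eventually_ge_atTop (24 / c)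
      filter_upwards [h2, Real.tendsto_log_atTop.eventually_ge_atTop 0] with x hx hx0
      simp only [Function.comp] at hx
      have h3 : Real.sqrt (Real.log x) * Real.sqrt (Real.log x) = Real.log x := Real.mul_self_sqrt hx0
      have h4 : 24 ≤ c * Real.sqrt (Real.log x) := by
        rw [div_le_iff₀ hc] at hx; linarith
      have h5 := Real.sqrt_nonneg (Real.log x)
      nlinarith
    have h2 : ∀ᶠ x : ℝ in atTop, 12 * Real.log (1 + |ψ x|) ≤ c / 4 * Real.log x := by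
      obtain ⟨C, hC⟩ := (hψ (c / 96) (by positivity)).bound
      have h3 := (tendsto_rpow_atTop (show (0:ℝ) < c / 96 by positivity)).eventually_ge_atTop (1 + |C|)
      filter_upwards [hC, h3, eventually_gt_atTop (1:ℝ)] with x hx hx3 hx1
      rw [Real.norm_eq_abs, Real.norm_eq_abs, abs_of_pos (Real.rpow_pos_of_pos (by linarith) _)] at hx
      have hp : 0 < x ^ (c / 96) := Real.rpow_pos_of_pos (by linarith) _
      have h4 : 1 + |ψ x| ≤ x ^ (c / 48) := by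
        have h5 : x ^ (c / 48) = x ^ (c / 96) * x ^ (c / 96) := by
          rw [← Real.rpow_add (by linarith)]; congr 1; ring
        have h6 : C * x ^ (c / 96) ≤ |C| * x ^ (c / 96) := mul_le_mul_of_nonneg_right (le_abs_self C) hp.le
        have h7 : 1 ≤ x ^ (c / 96) := by have := abs_nonneg C; linarith
        rw [h5]
        nlinarith [abs_nonneg C]
      have h8 : Real.log (1 + |ψ x|) ≤ c / 48 * Real.log x := by
        rw [← Real.log_rpow (by linarith)]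
        exact Real.log_le_log (by have := abs_nonneg (ψ x); linarith) h4
      linarith
    obtain ⟨x₁, hx₁⟩ := eventually_atTop.1 (h1.and h2)
    obtain ⟨X₁, hX₁⟩ := exists_nat_ge (max x₁ 2)
    refine ⟨X₁, fun X hX => ?_⟩
    have hXr : max x₁ 2 ≤ (X : ℝ) := hX₁.trans (by exact_mod_cast hX)
    have hX2 : (2:ℝ) ≤ X := (le_max_right _ _).trans hXr
    have hXx : x₁ ≤ (X:ℝ) := (le_max_left _ _).trans hXr
    have ha := (hx₁ X hXx).1
    have hb := (hx₁ ((2 * X : ℕ) : ℝ) (by push_cast; linarith)).2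
    have h3 : Real.log ((2 * X : ℕ) : ℝ) ≤ 2 * Real.log X := by
      push_cast
      rw [Real.log_mul (by norm_num) (by linarith)]
      have : Real.log 2 ≤ Real.log X := Real.log_le_log (by norm_num) hX2
      linarith
    unfold wψ
    nlinarith

/-- an element of the Selberg class which is large compared with `ψ` -/
lemma big_elt {ψ : ℝ → ℝ} (hψ : ∀ ε : ℝ, 0 < ε → ψ =O[atTop] fun x : ℝ => x ^ ε) :
    ∃ a : ℕ → ℂ, SS a ∧ NT a ∧ ∀ K : ℝ, ∃ N : ℕ, 3 ≤ N ∧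
      K * (1 + |ψ N|) < ∑ p ∈ (Iic N).filter Nat.Prime, ‖a p‖ ^ 2 / (p : ℝ) := by
  obtain ⟨a, ha, hnt, C₁, hC₁, X, hXi, hbig⟩ := exists_elt (wψ_WF hψ)
  refine ⟨a, ha, hnt, fun K => ?_⟩
  have hev : ∀ᶠ x : ℝ in atTop, |K| < Real.exp (2 * Real.sqrt (Real.log x)) / (2 * C₁ * Real.log x) := by
    have h1 : ∀ᶠ r : ℝ in atTop, |K| < Real.exp (2 * r) / (2 * C₁ * r ^ 2) := by
      have h2 := (Real.tendsto_exp_div_pow_atTop 2).eventually_gt_atTop (2 * C₁ * |K|)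
      filter_upwards [h2, eventually_gt_atTop (0:ℝ)] with r hr hr0
      rw [lt_div_iff₀ (by positivity)] at hr ⊢
      have h3 : Real.exp r ≤ Real.exp (2 * r) := Real.exp_le_exp.2 (by linarith)
      calc |K| * (2 * C₁ * r ^ 2) = 2 * C₁ * |K| * r ^ 2 := by ring
        _ < Real.exp r := hr
        _ ≤ _ := h3
    have h2 := (Real.tendsto_sqrt_atTop.comp Real.tendsto_log_atTop).eventually h1
    filter_upwards [h2, Real.tendsto_log_atTop.eventually_ge_atTop 0] with x hx hx0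
    simp only [Function.comp] at hx
    rwa [Real.sq_sqrt hx0] at hx
  obtain ⟨R, hR⟩ := eventually_atTop.1 hev
  obtain ⟨i, hi⟩ := exists_nat_ge (max R 3)
  have hXr : max R 3 ≤ (X i : ℝ) := hi.trans (hXi i)
  have hXR : R ≤ (X i : ℝ) := (le_max_left _ _).trans hXr
  have hX3 : (3:ℝ) ≤ (X i : ℝ) := (le_max_right _ _).trans hXr
  have hlog : 1 < Real.log (X i) := by
    rw [Real.lt_log_iff_exp_lt (by linarith)]
    have := Real.exp_one_lt_d9
    linarith
  refine ⟨2 * X i, ?_, ?_⟩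
  · have : 3 ≤ X i := by exact_mod_cast hX3
    omega
  refine lt_of_lt_of_le ?_ (hbig i hlog)
  have h1 := hR _ hXR
  have hL0 : 0 < 2 * C₁ * Real.log (X i) := by positivity
  have hψ0 : 0 < 1 + |ψ ((2 * X i : ℕ) : ℝ)| := by have := abs_nonneg (ψ ((2 * X i : ℕ) : ℝ)); linarith
  have hψ1 : 1 ≤ 1 + |ψ ((2 * X i : ℕ) : ℝ)| := by have := abs_nonneg (ψ ((2 * X i : ℕ) : ℝ)); linarith
  have h2 : Real.exp (wψ ψ (X i) / 6) =
      Real.exp (2 * Real.sqrt (Real.log (X i))) * (1 + |ψ ((2 * X i : ℕ) : ℝ)|) ^ 2 := by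
    have e1 : wψ ψ (X i) / 6 = 2 * Real.sqrt (Real.log (X i)) + 2 * Real.log (1 + |ψ ((2 * X i : ℕ) : ℝ)|) := by
      unfold wψ; ring
    have e2 : Real.exp (2 * Real.log (1 + |ψ ((2 * X i : ℕ) : ℝ)|)) = (1 + |ψ ((2 * X i : ℕ) : ℝ)|) ^ 2 := by
      rw [show (2:ℝ) * Real.log (1 + |ψ ((2 * X i : ℕ) : ℝ)|) =
        Real.log (1 + |ψ ((2 * X i : ℕ) : ℝ)|) + Real.log (1 + |ψ ((2 * X i : ℕ) : ℝ)|) by ring,
        Real.exp_add, Real.exp_log hψ0]
      ring
    rw [e1, Real.exp_add, e2]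
  rw [h2]
  rw [lt_div_iff₀ hL0] at h1 ⊢
  have hE := Real.exp_pos (2 * Real.sqrt (Real.log (X i)))
  set E := Real.exp (2 * Real.sqrt (Real.log (X i)))
  set P := 1 + |ψ ((2 * X i : ℕ) : ℝ)|
  calc K * P * (2 * C₁ * Real.log (X i)) ≤ |K| * P * (2 * C₁ * Real.log (X i)) := by
        gcongr
        exact le_abs_self K
    _ = (|K| * (2 * C₁ * Real.log (X i))) * P := by ring
    _ < E * P := by gcongr
    _ ≤ E * P ^ 2 := by
        apply mul_le_mul_of_nonneg_left _ hE.le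
        nlinarith

/-- some primitive element is as large as the given one -/
theorem prim_of_big {ψ : ℝ → ℝ} (h : ∃ a : ℕ → ℂ, SS a ∧ NT a ∧ ∀ K : ℝ, ∃ N : ℕ, 3 ≤ N ∧
      K * (1 + |ψ N|) < ∑ p ∈ (Iic N).filter Nat.Prime, ‖a p‖ ^ 2 / (p : ℝ)) :
    ∃ P : ℕ → ℂ, Prim P ∧ ∀ K : ℝ, ∃ N : ℕ, 3 ≤ N ∧
    K * (1 + |ψ N|) < ∑ p ∈ (Finset.Iic N).filter Nat.Prime, ‖P p‖ ^ 2 / (p : ℝ) := by
  obtain ⟨a, haS, hnt, hbig⟩ := h
  obtain ⟨d, hd⟩ := ss_cls haS
  obtain ⟨l, hl, hlP, hsum⟩ := factor degGap degAdd (⌈d⌉₊) a d hd hnt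
    (lt_of_le_of_lt (Nat.le_ceil d) (by linarith))
  by_contra hcon
  push Not at hcon
  -- uniform constant for the list
  have hK : ∀ l' : List (ℕ → ℂ), (∀ f ∈ l', Prim f) → ∃ K : ℝ, ∀ N : ℕ, 3 ≤ N →
      (l'.map (fun f => ∑ p ∈ (Finset.Iic N).filter Nat.Prime, ‖f p‖ ^ 2 / (p : ℝ))).sum ≤
        K * (1 + |ψ N|) := by
    intro l'
    induction l' with
    | nil => exact fun _ => ⟨0, fun N _ => by simp⟩
    | cons f l' ih =>
      intro hl'
      obtain ⟨K₁, h₁⟩ := ih fun g hg => hl' g (List.mem_cons_of_mem _ hg)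
      obtain ⟨K₂, h₂⟩ := hcon f (hl' f List.mem_cons_self)
      refine ⟨K₂ + K₁, fun N hN => ?_⟩
      simp only [List.map_cons, List.sum_cons]
      have := h₁ N hN
      have := h₂ N hN
      rw [add_mul]
      linarith
  obtain ⟨K, hK'⟩ := hK l hlP
  obtain ⟨N, hN, hlt⟩ := hbig (l.length * K)
  have h1 := big_factor l hsum N
  have h2 := mul_le_mul_of_nonneg_left (hK' N hN) (Nat.cast_nonneg (α := ℝ) l.length)
  have h3 := h1.trans h2
  rw [← mul_assoc] at h3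
  exact absurd hlt (not_lt.2 h3)

/-- for every `ψ` with `ψ(x) ≪ x^ε` there is a primitive element with `S_F` not `O(ψ)` -/
theorem final_max {ψ : ℝ → ℝ} (hψ : ∀ ε : ℝ, 0 < ε → ψ =O[atTop] fun x : ℝ => x ^ ε) :
    ∃ a : ℕ → ℂ, IsPrimitive a ∧ ∀ K X₀ : ℝ, ∃ x : ℝ, X₀ ≤ x ∧ K * |ψ x| < SF a x := by
  obtain ⟨a, ha, hbig⟩ := prim_of_big (big_elt hψ)
  refine ⟨a, prim_isPrimitive ha, fun K X₀ => ?_⟩
  obtain ⟨N, hN, hlt⟩ := hbig (|K| + |SF a X₀|)
  rw [← SF_nat] at hlt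
  have h0 := abs_nonneg (ψ N)
  have hK := abs_nonneg K
  have hS := abs_nonneg (SF a X₀)
  have h1 : |SF a X₀| < SF a N := by nlinarith
  refine ⟨N, ?_, ?_⟩
  · by_contra hc
    push Not at hc
    have := SF_mono a hc.le
    have := le_abs_self (SF a X₀)
    linarith
  · have h2 : K * |ψ N| ≤ |K| * |ψ N| := mul_le_mul_of_nonneg_right (le_abs_self K) h0
    nlinarith

/-- the trivial upper bound -/
theorem SF_upper {a : ℕ → ℂ} (hram : ∀ ε : ℝ, 0 < ε → ∃ C : ℝ, ∀ n : ℕ, 1 ≤ n → ‖a n‖ ≤ C * (n : ℝ) ^ ε)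
    {ε : ℝ} (hε : 0 < ε) : SF a =O[atTop] fun x : ℝ => x ^ ε := by
  obtain ⟨C, hC⟩ := hram (ε / 4) (by positivity)
  have hlog := isLittleO_log_rpow_atTop (show (0:ℝ) < ε / 2 by positivity)
  have h1 : SF a =O[atTop] fun x : ℝ => x ^ (ε / 2) * (1 + Real.log x) := by
    refine IsBigO.of_bound (C ^ 2) ?_
    filter_upwards [eventually_ge_atTop (1:ℝ)] with x hx
    have hlx : 0 ≤ Real.log x := Real.log_nonneg hx
    have hSF0 : 0 ≤ SF a x := Finset.sum_nonneg fun p _ => by positivity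
    rw [Real.norm_of_nonneg hSF0, Real.norm_of_nonneg (by positivity)]
    have h2 : SF a x ≤ ∑ n ∈ Finset.Icc 1 ⌊x⌋₊, C ^ 2 * x ^ (ε / 2) * ((n : ℝ))⁻¹ := by
      have hsub : (Finset.Iic ⌊x⌋₊).filter Nat.Prime ⊆ Finset.Icc 1 ⌊x⌋₊ := by
        intro p hp
        rw [Finset.mem_filter, Finset.mem_Iic] at hp
        rw [Finset.mem_Icc]
        exact ⟨hp.2.one_lt.le, hp.1⟩
      refine le_trans ?_ (Finset.sum_le_sum_of_subset_of_nonneg hsub fun n _ _ => by positivity)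
      refine Finset.sum_le_sum fun p hp => ?_
      rw [Finset.mem_filter, Finset.mem_Iic] at hp
      have hp1 : (1:ℝ) ≤ p := by exact_mod_cast hp.2.one_lt.le
      have hpx : (p:ℝ) ≤ x := (Nat.le_floor_iff (by linarith)).1 hp.1
      rw [div_eq_mul_inv]
      apply mul_le_mul_of_nonneg_right _ (by positivity)
      have h3 := hC p hp.2.one_lt.le
      have h4 : ‖a p‖ ^ 2 ≤ (C * (p:ℝ) ^ (ε / 4)) ^ 2 := pow_le_pow_left₀ (norm_nonneg _) h3 2
      have h5 : ((p:ℝ) ^ (ε / 4)) ^ 2 = (p:ℝ) ^ (ε / 2) := by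
        rw [← Real.rpow_natCast, ← Real.rpow_mul (by linarith)]
        congr 1
        push_cast
        ring
      rw [mul_pow, h5] at h4
      refine h4.trans (mul_le_mul_of_nonneg_left ?_ (sq_nonneg C))
      exact Real.rpow_le_rpow (by linarith) hpx (by positivity)
    refine h2.trans ?_
    rw [← Finset.mul_sum, mul_assoc]
    apply mul_le_mul_of_nonneg_left _ (sq_nonneg C)
    apply mul_le_mul_of_nonneg_left _ (by positivity)
    have h6 := harmonic_floor_le_one_add_log x hx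
    have h7 : ((harmonic ⌊x⌋₊ : ℚ) : ℝ) = ∑ n ∈ Finset.Icc 1 ⌊x⌋₊, ((n : ℝ))⁻¹ := by
      rw [harmonic_eq_sum_Icc]
      push_cast
      rfl
    rw [← h7]
    exact h6
  refine h1.trans ?_
  have h8 : (fun x : ℝ => 1 + Real.log x) =O[atTop] fun x : ℝ => x ^ (ε / 2) := by
    refine IsBigO.add ?_ hlog.isBigO
    refine IsBigO.of_bound 1 ?_
    filter_upwards [eventually_ge_atTop (1:ℝ)] with x hx
    rw [Real.norm_of_nonneg (by positivity), Real.norm_of_nonneg (by positivity), one_mul]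
    exact Real.one_le_rpow hx (by positivity)
  have h9 : (fun x : ℝ => x ^ (ε / 2) * (1 + Real.log x)) =O[atTop] fun x : ℝ => x ^ (ε / 2) * x ^ (ε / 2) :=
    (isBigO_refl _ _).mul h8
  refine h9.trans (IsBigO.of_bound 1 ?_)
  filter_upwards [eventually_gt_atTop (0:ℝ)] with x hx
  rw [← Real.rpow_add hx, one_mul]
  apply le_of_eq
  congr 2
  ring

end Pool.Agent.Y627.BC
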